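import Pool.Agent.W184.NZ.Two

set_option autoImplicit false

/-!
MP_f9aece_nt, exponents `β → 0`: unconditional sharp asymptotics.
For every `ε > 0` there is `β₀ > 0` such that for every `x` and all large `T`, simultaneously for all real
`β ∈ (0, β₀]`, the moment `a(T) = ∫_0^1 |ζ(1/2 + ix + iuT)|^β du` lies within a factor `1 ± ε` of
`(log T)^(β²/4)`.  In particular `a(T) ∼ (log T)^(β(T)²/4)` for every function `β(T) → 0⁺`.
-/

open Filter Topology

theorem Pool.Agent.Results.MP_f9aece_nt.NearZero.result :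
    (∀ ε : ℝ, 0 < ε → ∃ β₀ : ℝ, 0 < β₀ ∧ ∀ x : ℝ, ∀ᶠ T : ℝ in atTop, ∀ β : ℝ, 0 < β → β ≤ β₀ →
      |(∫ u in (0:ℝ)..1, ‖riemannZeta (1 / 2 + x * Complex.I + (u * T) * Complex.I)‖ ^ β) /
        Real.exp (β ^ 2 / 4 * Real.log (Real.log T)) - 1| ≤ ε) ∧
    (∀ (x : ℝ) (β : ℝ → ℝ), (∀ᶠ T : ℝ in atTop, 0 < β T) → Tendsto β atTop (𝓝 0) →
      Tendsto (fun T : ℝ =>
        (∫ u in (0:ℝ)..1, ‖riemannZeta (1 / 2 + x * Complex.I + (u * T) * Complex.I)‖ ^ (β T)) /
          Real.exp (β T ^ 2 / 4 * Real.log (Real.log T))) atTop (𝓝 1)) := by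
  have main : ∀ ε : ℝ, 0 < ε → ∃ β₀ : ℝ, 0 < β₀ ∧ ∀ x : ℝ, ∀ᶠ T : ℝ in atTop, ∀ β : ℝ, 0 < β → β ≤ β₀ →
      |(∫ u in (0:ℝ)..1, ‖riemannZeta (1 / 2 + x * Complex.I + (u * T) * Complex.I)‖ ^ β) /
        Real.exp (β ^ 2 / 4 * Real.log (Real.log T)) - 1| ≤ ε := by
    intro ε hε
    obtain ⟨α₀, h0, h1, h2⟩ := Pool.Agent.W184.NZ.nz_two (half_pos hε)
    refine ⟨2 * α₀, by positivity, fun x => ?_⟩
    filter_upwards [h2, Pool.Agent.W184.NZ.shiftA x (half_pos hε),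
      Real.tendsto_log_atTop.eventually_ge_atTop 1, eventually_gt_atTop 0] with T h3 h4 hL hT β hβ hββ
    have h5 := h3 (β / 2) (by linarith) (by linarith)
    have h6 := h4 (β / 2) (by linarith) (by linarith)
    have e0 : 2 * (β / 2) = β := by ring
    have e0' : (β / 2) ^ 2 = β ^ 2 / 4 := by ring
    rw [e0] at h5 h6
    rw [e0'] at h5
    have e1 : Real.exp (β ^ 2 / 4 * Real.log (Real.log T)) = Real.log T ^ (β ^ 2 / 4) := by
      rw [Real.rpow_def_of_pos (by linarith), mul_comm]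
    have e2 : ∫ u in (0:ℝ)..1, ‖riemannZeta (1 / 2 + x * Complex.I + (u * T) * Complex.I)‖ ^ β =
        T⁻¹ * ∫ t in x..(T + x), Pool.Agent.W184.zn (1 / 2) t ^ β := by
      have h5 := intervalIntegral.integral_comp_mul_add (a := (0:ℝ)) (b := 1)
        (fun t => Pool.Agent.W184.zn (1 / 2) t ^ β) hT.ne' x
      rw [mul_zero, zero_add, mul_one, smul_eq_mul] at h5
      rw [← h5]
      refine intervalIntegral.integral_congr fun u _ => ?_
      unfold Pool.Agent.W184.zn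
      congr 3
      push_cast
      ring
    rw [e1, e2]
    set W := ∫ t in x..(T + x), Pool.Agent.W184.zn (1 / 2) t ^ β
    set V := ∫ t in (0:ℝ)..T, Pool.Agent.W184.zn (1 / 2) t ^ β
    set P := Real.log T ^ (β ^ 2 / 4) with hP
    have hP1 : 1 ≤ P := Real.one_le_rpow hL (by positivity)
    have hP0 : 0 < P := by linarith
    have hTP : T ≤ T * P := le_mul_of_one_le_right hT.le hP1
    have hTP0 : 0 < T * P := by positivity
    have h7 : |W - T * P| ≤ ε * (T * P) := by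
      calc |W - T * P| = |(W - V) + (V - T * P)| := by ring_nf
        _ ≤ |W - V| + |V - T * P| := abs_add_le _ _
        _ ≤ ε / 2 * T + ε / 2 * (T * P) := add_le_add h6 h5
        _ ≤ ε / 2 * (T * P) + ε / 2 * (T * P) := by gcongr
        _ = _ := by ring
    have e3 : T⁻¹ * W / P - 1 = (W - T * P) / (T * P) := by field_simp
    rw [e3, abs_div, abs_of_pos hTP0, div_le_iff₀ hTP0]
    exact h7
  refine ⟨main, fun x β hβ hβ0 => ?_⟩
  rw [Metric.tendsto_nhds]
  intro ε hε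
  obtain ⟨β₀, h0, h1⟩ := main (ε / 2) (half_pos hε)
  filter_upwards [h1 x, hβ, hβ0.eventually (gt_mem_nhds h0)] with T h2 h3 h4
  rw [Real.dist_eq]
  exact (h2 (β T) h3 h4.le).trans_lt (half_lt_self hε)
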