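import Pool.Agent.W181.Mom.App4
import Pool.Agent.W181.Mom.Avg

set_option autoImplicit false

/-!
Unconditional lower bounds, of the predicted order and with an explicit constant, for the moments
of zeta on the critical line with arbitrary real (not only rational) exponents `β ≥ 2`, over all
intervals `[T, T + U]`, `U ≥ (log T)^B`, and for the average of the problem.
-/

open Filter

theorem Pool.Agent.Results.MP_f9aece_nt.RealExponentsPolylogWindows.lc_gamma (κ : ℝ) (hκ : 0 < κ)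
    (m : ℕ) :
    Pool.Agent.H306R2.lc κ m =
      Real.Gamma (κ + m) / (Real.Gamma κ * (m.factorial : ℝ)) := by
  have hG : Real.Gamma κ ≠ 0 := (Real.Gamma_pos_of_pos hκ).ne'
  unfold Pool.Agent.H306R2.lc
  induction m with
  | zero => simp [hG]
  | succ m ih =>
    rw [Finset.prod_range_succ, ih]
    have h1 : κ + ((m + 1 : ℕ) : ℝ) = (κ + m) + 1 := by push_cast; ring
    have h2 : κ + (m : ℝ) ≠ 0 := by positivity
    rw [h1, Real.Gamma_add_one h2, Nat.factorial_succ]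
    have h3 : (m.factorial : ℝ) ≠ 0 := by exact_mod_cast m.factorial_ne_zero
    have h4 : (m : ℝ) + 1 ≠ 0 := by positivity
    push_cast
    field_simp

theorem Pool.Agent.Results.MP_f9aece_nt.RealExponentsPolylogWindows.aF_gamma (κ : ℝ) (hκ : 0 < κ) :
    Pool.Agent.H306R2.aF κ =
      ∏' p : Nat.Primes, ((1 - ((p : ℕ) : ℝ)⁻¹) ^ (κ ^ 2) *
          ∑' m : ℕ, (Real.Gamma (κ + m) / (Real.Gamma κ * (m.factorial : ℝ))) ^ 2 *
            ((p : ℕ) : ℝ)⁻¹ ^ m) := by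
  unfold Pool.Agent.H306R2.aF
  refine tprod_congr fun p => ?_
  rw [one_div]
  congr 1
  refine tsum_congr fun m => ?_
  rw [Pool.Agent.Results.MP_f9aece_nt.RealExponentsPolylogWindows.lc_gamma κ hκ]

theorem Pool.Agent.Results.MP_f9aece_nt.RealExponentsPolylogWindows.result (A : ℝ) (hA : 0 < A)
    (hA4 : A < 4 / Real.exp 1) :
    ∃ (c : ℝ → ℝ) (c0 K : ℝ), 0 < c0 ∧ (∀ β : ℝ, c0 ≤ c β) ∧ (∀ β : ℝ, K ≤ β → c β = 1) ∧
      ∀ β : ℝ, 2 ≤ β →
      (∃ B : ℝ, 0 < B ∧ ∀ᶠ T : ℝ in atTop, ∀ U : ℝ, Real.log T ^ B ≤ U →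
        c β * (A ^ (β ^ 2 / 4) / Real.Gamma (β ^ 2 / 4 + 1) *
          (∏' p : Nat.Primes, ((1 - ((p : ℕ) : ℝ)⁻¹) ^ (β ^ 2 / 4) *
            ∑' m : ℕ, (Real.Gamma (β / 2 + m) / (Real.Gamma (β / 2) * (m.factorial : ℝ))) ^ 2 *
              ((p : ℕ) : ℝ)⁻¹ ^ m))) * Real.log U ^ (β ^ 2 / 4) ≤
        U⁻¹ * ∫ t in T..(T + U), ‖riemannZeta (1 / 2 + t * Complex.I)‖ ^ β) ∧
      (∀ x : ℝ, ∀ᶠ T : ℝ in atTop,
        c β * (A ^ (β ^ 2 / 4) / Real.Gamma (β ^ 2 / 4 + 1) *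
          (∏' p : Nat.Primes, ((1 - ((p : ℕ) : ℝ)⁻¹) ^ (β ^ 2 / 4) *
            ∑' m : ℕ, (Real.Gamma (β / 2 + m) / (Real.Gamma (β / 2) * (m.factorial : ℝ))) ^ 2 *
              ((p : ℕ) : ℝ)⁻¹ ^ m))) * Real.log T ^ (β ^ 2 / 4) ≤
        ∫ u in (0:ℝ)..1, ‖riemannZeta (1 / 2 + Complex.I * x + Complex.I * u * T)‖ ^ β) := by
  obtain ⟨A', hA1, hA2⟩ := exists_between hA4
  have hA'0 : 0 < A' := hA.trans hA1
  obtain ⟨c1, K1, hc1, hK1, h1⟩ := Pool.Agent.W181.Mom.uniform_real A hA hA4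
  obtain ⟨c2, K2, hc2, hK2, h2⟩ := Pool.Agent.W181.Mom.uniform_real A' hA'0 hA2
  obtain ⟨c0, hc0d⟩ : ∃ c0 : ℝ, c0 = min (min c1 c2) 1 := ⟨_, rfl⟩
  have hc0 : 0 < c0 := by rw [hc0d]; positivity
  have hc01 : c0 ≤ c1 := by rw [hc0d]; exact (min_le_left _ _).trans (min_le_left _ _)
  have hc02 : c0 ≤ c2 := by rw [hc0d]; exact (min_le_left _ _).trans (min_le_right _ _)
  have hc03 : c0 ≤ 1 := by rw [hc0d]; exact min_le_right _ _
  obtain ⟨K, hKd⟩ : ∃ K : ℝ, K = 2 * max K1 K2 := ⟨_, rfl⟩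
  have hc : ∃ c : ℝ → ℝ, c = fun β => if K ≤ β then 1 else c0 := ⟨_, rfl⟩
  obtain ⟨c, hcd⟩ := hc
  have hcpos : ∀ β, c0 ≤ c β := by
    intro β
    rw [hcd]
    simp only
    split_ifs with h
    · exact hc03
    · exact le_rfl
  have hcase1 : ∀ β, c β ≤ c1 ∨ (K1 ≤ β / 2 ∧ c β ≤ 1) := by
    intro β
    rw [hcd]
    simp only
    split_ifs with h
    · right
      rw [hKd] at h
      have := le_max_left K1 K2
      exact ⟨by linarith, le_rfl⟩
    · left; exact hc01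
  have hcase2 : ∀ β, c β ≤ c2 ∨ (K2 ≤ β / 2 ∧ c β ≤ 1) := by
    intro β
    rw [hcd]
    simp only
    split_ifs with h
    · right
      rw [hKd] at h
      have := le_max_right K1 K2
      exact ⟨by linarith, le_rfl⟩
    · left; exact hc02
  refine ⟨c, c0, K, hc0, hcpos, fun β hβ => by rw [hcd]; simp only; rw [if_pos hβ], ?_⟩
  intro β hβ
  have hβ0 : 0 < β / 2 := by linarith
  have haF := Pool.Agent.H306R2.aF_pos hβ0
  have hG : 0 < Real.Gamma ((β / 2) ^ 2 + 1) := Real.Gamma_pos_of_pos (by positivity)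
  have haFg := Pool.Agent.Results.MP_f9aece_nt.RealExponentsPolylogWindows.aF_gamma (β / 2) hβ0
  rw [show (β / 2) ^ 2 = β ^ 2 / 4 by ring] at haFg
  constructor
  · obtain ⟨B, hB, h⟩ := h1 (β / 2) (by linarith) (c β) (hcase1 β)
    refine ⟨B, hB, ?_⟩
    filter_upwards [h, eventually_gt_atTop 1] with T hT hT0 U hU
    have hU0 : 0 < U := lt_of_lt_of_le (Real.rpow_pos_of_pos (Real.log_pos hT0) _) hU
    have hT' := hT U hU
    rw [show (β / 2) ^ 2 = β ^ 2 / 4 by ring, show 2 * (β / 2) = β by ring] at hT'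
    rw [← div_eq_inv_mul, le_div_iff₀ hU0, ← haFg]
    refine le_trans (le_of_eq ?_) hT'
    ring
  · intro x
    obtain ⟨B, hB, h⟩ := h2 (β / 2) (by linarith) (c β) (hcase2 β)
    have hcβ : 0 < c β := lt_of_lt_of_le hc0 (hcpos β)
    have h3 := Pool.Agent.W181.Mom.window_to_avg (2 * (β / 2)) ((β / 2) ^ 2)
      (Pool.Agent.H306R2.aF (β / 2) * (c β * (A ^ ((β / 2) ^ 2) / Real.Gamma ((β / 2) ^ 2 + 1))))
      (Pool.Agent.H306R2.aF (β / 2) * (c β * (A' ^ ((β / 2) ^ 2) / Real.Gamma ((β / 2) ^ 2 + 1)))) B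
      (by linarith) (by positivity)
      (mul_lt_mul_of_pos_left (mul_lt_mul_of_pos_left (div_lt_div_of_pos_right
        (Real.rpow_lt_rpow hA.le hA1 (by positivity)) hG) hcβ) haF) h
      Pool.Agent.H306R2.zeta_line_continuous x
    filter_upwards [h3] with T hT
    rw [show (β / 2) ^ 2 = β ^ 2 / 4 by ring, show 2 * (β / 2) = β by ring] at hT
    rw [← haFg]
    refine le_trans (le_of_eq ?_) hT
    ring
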