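import Pool.Agent.W181.Mom.App3
import Pool.Agent.W181.Mom.Avg

set_option autoImplicit false

/-!
The moments of zeta with exponent `β` slightly larger than 2: unconditional lower bounds of the
predicted order with a constant as close to 1 (the constant at `β = 2`) as we please, over all
intervals `[T, T + U]`, `U ≥ (log T)^B`, and for the average of the problem.
-/

open Filter

theorem Pool.Agent.Results.MP_f9aece_nt.SharpNearSecondMoment.result (ε : ℝ) (hε : 0 < ε) :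
    ∃ δ : ℝ, 0 < δ ∧ ∀ β : ℝ, 2 ≤ β → β < 2 + δ →
      (∃ B : ℝ, 0 < B ∧ ∀ᶠ T : ℝ in atTop, ∀ U : ℝ, Real.log T ^ B ≤ U →
        (1 - ε) * Real.log U ^ (β ^ 2 / 4) ≤
          U⁻¹ * ∫ t in T..(T + U), ‖riemannZeta (1 / 2 + t * Complex.I)‖ ^ β) ∧
      (∀ x : ℝ, ∀ᶠ T : ℝ in atTop,
        (1 - ε) * Real.log T ^ (β ^ 2 / 4) ≤
          ∫ u in (0:ℝ)..1, ‖riemannZeta (1 / 2 + Complex.I * x + Complex.I * u * T)‖ ^ β) := by
  have hε' : 0 < min (ε / 2) (1 / 2) := by positivity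
  obtain ⟨δ, hδ, h0⟩ := Pool.Agent.W181.Mom.near_one (min (ε / 2) (1 / 2)) hε'
  refine ⟨2 * δ, by positivity, fun β hβ1 hβ2 => ?_⟩
  obtain ⟨B, hB, h⟩ := h0 (β / 2) (by linarith) (by linarith)
  have hlt : 1 - ε < 1 - min (ε / 2) (1 / 2) := by
    have := min_le_left (ε / 2) (1 / 2)
    linarith
  have hpos : 0 < 1 - min (ε / 2) (1 / 2) := by
    have := min_le_right (ε / 2) (1 / 2)
    linarith
  constructor
  · refine ⟨B, hB, ?_⟩
    filter_upwards [h, eventually_gt_atTop 1, Real.tendsto_log_atTop.eventually_gt_atTop 1]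
      with T hT hT0 hT1 U hU
    have hU1 : 1 ≤ U := le_trans (Real.one_le_rpow hT1.le hB.le) hU
    have hU0 : 0 < U := by linarith
    have hT' := hT U hU
    rw [show (β / 2) ^ 2 = β ^ 2 / 4 by ring, show 2 * (β / 2) = β by ring] at hT'
    rw [← div_eq_inv_mul, le_div_iff₀ hU0]
    have h2 : 0 ≤ U * Real.log U ^ (β ^ 2 / 4) :=
      mul_nonneg hU0.le (Real.rpow_nonneg (Real.log_nonneg hU1) _)
    calc (1 - ε) * Real.log U ^ (β ^ 2 / 4) * U = (1 - ε) * (U * Real.log U ^ (β ^ 2 / 4)) := by ring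
      _ ≤ (1 - min (ε / 2) (1 / 2)) * (U * Real.log U ^ (β ^ 2 / 4)) :=
          mul_le_mul_of_nonneg_right hlt.le h2
      _ ≤ _ := hT'
  · intro x
    have h1 := Pool.Agent.W181.Mom.window_to_avg (2 * (β / 2)) ((β / 2) ^ 2)
      (1 - ε) (1 - min (ε / 2) (1 / 2)) B (by linarith) hpos hlt h
      Pool.Agent.H306R2.zeta_line_continuous x
    filter_upwards [h1] with T hT
    rw [show (β / 2) ^ 2 = β ^ 2 / 4 by ring, show 2 * (β / 2) = β by ring] at hT
    exact hT
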