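import Pool.Agent.W184.Fam

set_option autoImplicit false

/-!
MP_f9aece_nt, exponents `β = 2/v` with an integer `v ≥ 3`: unconditional explicit upper and lower bounds of the
predicted order for `a(T) = ∫_0^1 |ζ(1/2 + ix + iuT)|^β du`.
-/

open Filter

theorem Pool.Agent.Results.MP_f9aece_nt.SmallBeta.result (v : ℕ) (hv : 3 ≤ v) (β : ℝ)
    (hβ : β = 2 / (v : ℝ)) (x : ℝ) :
    ∀ᶠ T : ℝ in atTop,
      13 / 20 * (∏' p : Nat.Primes, ((1 - 1 / (p : ℝ)) ^ (β ^ 2 / 4) *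
          ∑' m : ℕ, (∏ i ∈ Finset.range m, (β / 2 + i) / ((i : ℝ) + 1)) ^ 2 *
            (1 / (p : ℝ)) ^ m)) / Real.Gamma (β ^ 2 / 4 + 1) *
        Real.exp (β ^ 2 / 4 * Real.log (Real.log T)) ≤
        ∫ u in (0:ℝ)..1, ‖riemannZeta (1 / 2 + x * Complex.I + (u * T) * Complex.I)‖ ^ β ∧
      ∫ u in (0:ℝ)..1, ‖riemannZeta (1 / 2 + x * Complex.I + (u * T) * Complex.I)‖ ^ β ≤
      29 / 6 * (∏' p : Nat.Primes, ((1 - 1 / (p : ℝ)) ^ (β ^ 2 / 4) *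
          ∑' m : ℕ, (∏ i ∈ Finset.range m, (β / 2 + i) / ((i : ℝ) + 1)) ^ 2 *
            (1 / (p : ℝ)) ^ m)) / Real.Gamma (β ^ 2 / 4 + 1) *
        Real.exp (β ^ 2 / 4 * Real.log (Real.log T)) := by
  have hv0 : (0:ℝ) < v := by exact_mod_cast (by omega : 0 < v)
  have hβ2 : β ^ 2 / 4 = (1 / (v:ℝ)) ^ 2 := by rw [hβ]; ring
  have hβ1 : β / 2 = 1 / (v:ℝ) := by rw [hβ]; ring
  have e : (∏' p : Nat.Primes, ((1 - 1 / (p : ℝ)) ^ (β ^ 2 / 4) *
          ∑' m : ℕ, (∏ i ∈ Finset.range m, (β / 2 + i) / ((i : ℝ) + 1)) ^ 2 *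
            (1 / (p : ℝ)) ^ m)) = Pool.Agent.H306R2.aF (1 / (v:ℝ)) := by
    unfold Pool.Agent.H306R2.aF Pool.Agent.H306R2.lc
    rw [hβ2, hβ1]
  rw [e, hβ2]
  have hA : 0 < Pool.Agent.H306R2.aF (1 / (v:ℝ)) := Pool.Agent.H306R2.aF_pos (by positivity)
  have hG : 0 < Real.Gamma ((1 / (v:ℝ)) ^ 2 + 1) := Real.Gamma_pos_of_pos (by positivity)
  set A : ℝ := Pool.Agent.H306R2.aF (1 / (v:ℝ)) / Real.Gamma ((1 / (v:ℝ)) ^ 2 + 1) with hAd
  have hA0 : 0 < A := by positivity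
  filter_upwards [Pool.Agent.W184.fam_lower hv, Pool.Agent.W184.fam_upper (v := v) (by omega),
    Pool.Agent.W184.shift_ev (v := v) (by omega) x (show 0 < A / 500 by positivity),
    eventually_gt_atTop 1] with T h1 h2 h3 h4
  have hT0 : 0 < T := by linarith
  have hL := Real.log_pos h4
  have e1 : Real.exp ((1 / (v:ℝ)) ^ 2 * Real.log (Real.log T)) = Real.log T ^ ((1 / (v:ℝ)) ^ 2) := by
    rw [Real.rpow_def_of_pos hL, mul_comm]
  have e2 : ∫ u in (0:ℝ)..1, ‖riemannZeta (1 / 2 + x * Complex.I + (u * T) * Complex.I)‖ ^ β =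
      T⁻¹ * ∫ t in x..(T + x), Pool.Agent.W184.zn (1 / 2) t ^ (2 / (v:ℝ)) := by
    have h5 := intervalIntegral.integral_comp_mul_add (a := (0:ℝ)) (b := 1)
      (fun t => Pool.Agent.W184.zn (1 / 2) t ^ (2 / (v:ℝ))) hT0.ne' x
    rw [mul_zero, zero_add, mul_one, smul_eq_mul] at h5
    rw [← h5]
    refine intervalIntegral.integral_congr fun u _ => ?_
    unfold Pool.Agent.W184.zn
    rw [hβ]
    congr 3
    push_cast
    ring
  rw [e1, e2]
  set W := ∫ t in x..(T + x), Pool.Agent.W184.zn (1 / 2) t ^ (2 / (v:ℝ))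
  set V := ∫ t in (0:ℝ)..T, Pool.Agent.W184.zn (1 / 2) t ^ (2 / (v:ℝ))
  set P := Real.log T ^ ((1 / (v:ℝ)) ^ 2) with hP
  have hP0 : 0 < P := by positivity
  have hM : Pool.Agent.W184.MM v T = T * P := rfl
  rw [hM] at h1 h2 h3
  have h3' := abs_le.mp h3
  have hAP : 0 < A * P * T := by positivity
  have h1' : 163 / 250 * (A * P * T) ≤ V := by
    refine le_trans (le_of_eq ?_) h1
    rw [hAd]; ring
  have h2' : V ≤ 483 / 100 * (A * P * T) := by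
    refine h2.trans (le_of_eq ?_)
    rw [hAd]; ring
  have h3a : |W - V| ≤ 1 / 500 * (A * P * T) := by
    refine h3.trans (le_of_eq ?_)
    ring
  have h3b := abs_le.mp h3a
  have e3 : ∀ c : ℝ, c * Pool.Agent.H306R2.aF (1 / (v:ℝ)) / Real.Gamma ((1 / (v:ℝ)) ^ 2 + 1) * P =
      T⁻¹ * (c * (A * P * T)) := by
    intro c
    rw [hAd]
    field_simp
  rw [e3, e3]
  have hTi : 0 ≤ T⁻¹ := by positivity
  exact ⟨mul_le_mul_of_nonneg_left (by linarith) hTi, mul_le_mul_of_nonneg_left (by linarith) hTi⟩
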